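import Mathlib
import Pool.Agent.helper7.IG.Basic

/-!
# IG: module THM
-/

set_option autoImplicit false

open Polynomial

noncomputable section

namespace Pool.Agent.helper7.IG

/-- Module THM: the theta series are modular functions. -/
theorem THM_of (hR0 : R0_stmt) (hR1 : R1_stmt) : THM_stmt := by
  have key : ∀ (s : ℕ), ∀ c : ℤ, Odd c → th (s + 2) c ∈ MM := by
    intro s
    induction s with
    | zero =>
      intro c hc
      rw [th_two hc]
      exact DDk_mem
    | succ s ih =>
      intro c hc
      have h2 : (2 : ℕ) ≤ s + 2 := by omega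
      have e0 := hR0 (s + 2) h2 c hc
      have e1 := hR1 (s + 2) h2 c hc
      have hc' : Odd (c + 2 ^ (s + 2 - 1)) := by
        refine hc.add_even ?_
        exact (Int.even_pow' (by omega)).mpr even_two
      have m1 : th (s + 2) c ∈ MM := ih c hc
      have m2 : th (s + 2) (c + 2 ^ (s + 2 - 1)) ∈ MM := ih _ hc'
      have m3 : DDk ^ (2 * 4 ^ (s + 2 - 1)) * (th (s + 2) (c + 2 ^ (s + 2 - 1))) ^ 2 ∈ MM :=
        mul_mem (pow_mem DDk_mem _) (pow_mem m2 _)
      have e3 : s + 1 + 2 = s + 2 + 1 := by omega
      rw [e3]
      generalize hx : th (s + 2 + 1) c = x at e0 e1 ⊢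
      generalize hy : th (s + 2 + 1) (c + 2 ^ (s + 2)) = y at e0 e1
      generalize ht : th (s + 2) c = t at e0 m1
      generalize hu : DDk ^ (2 * 4 ^ (s + 2 - 1)) *
        (th (s + 2) (c + 2 ^ (s + 2 - 1))) ^ 2 = u at e1 m3
      refine mem_MM_of_root (X ^ 2 - C t * X + C u) ?_ ?_ ?_
      · intro h
        have h3 := congrArg (fun P => P.coeff 2) h
        simp at h3
      · intro i
        simp only [Polynomial.coeff_add, Polynomial.coeff_sub, Polynomial.coeff_X_pow,
          Polynomial.coeff_C_mul, Polynomial.coeff_X, Polynomial.coeff_C]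
        refine add_mem (sub_mem ?_ (mul_mem m1 ?_)) ?_
        · split_ifs
          · exact one_mem _
          · exact zero_mem _
        · split_ifs
          · exact one_mem _
          · exact zero_mem _
        · split_ifs
          · exact m3
          · exact zero_mem _
      · simp only [Polynomial.eval_add, Polynomial.eval_sub, Polynomial.eval_pow,
          Polynomial.eval_X, Polynomial.eval_mul, Polynomial.eval_C]
        rw [← e0, ← e1]
        ring
  intro s c hs hc
  obtain ⟨k, rfl⟩ := Nat.exists_eq_add_of_le' hs
  exact key k c hc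

end Pool.Agent.helper7.IG
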